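import Pool.Agent.W711.HT.Geo

/-! Project HT: the hinge identity. -/

set_option autoImplicit false

namespace Pool.Agent.W883.HT.Hid

open Pool.Agent.W711.HT
open Pool.Agent.W709.VC (Dv S_DSYM S_FIVE)

lemma stepA (hS : S_DSYM) (hF : S_FIVE) (T X : ℂ) (hT : T ≠ 0) (hT1 : T ≠ -1) (hX : X ≠ 0)
    (hX1 : X ≠ 1) (h1 : T + X ≠ 0) (h2 : 1 + X * T ≠ 0) :
    (Dv ((1 - X) / (1 + T)) + Dv ((1 + T) / (1 + X * T))) -
      (Dv (-((1 - X) * T / (X * (1 + T)))) + Dv (X * (1 + T) / (1 + X * T))) =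
    -(2 * Dv X + Dv (-(T / X)) + Dv (-(1 / (X * T)))) := by
  obtain ⟨_, hs, hi⟩ := hS
  have hT1' : 1 + T ≠ 0 := by
    intro h
    apply hT1
    linear_combination h
  have hX1' : 1 - X ≠ 0 := by
    intro h
    apply hX1
    linear_combination -h
  have e1 := hF (1 + T) (1 - X) hT1' (by simpa using hT) hX1' (by simpa using hX) (by
    intro h
    apply h1
    linear_combination h)
  have e2 := hF (1 + X * T) (1 + T) h2 (by simpa using ⟨hX, hT⟩) hT1' (by simpa using hT) (by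
    intro h
    have h3 : (X - 1) * T = 0 := by linear_combination h
    rcases mul_eq_zero.1 h3 with h4 | h4
    · exact hX1 (by linear_combination h4)
    · exact hT h4)
  have a1 : (1 - (1 + T)⁻¹) / (1 - (1 - X)⁻¹) = -((1 - X) * T / (X * (1 + T))) := by
    have : 1 - (1 - X)⁻¹ = -X / (1 - X) := by
      field_simp
      ring
    rw [this]
    have : 1 - (1 + T)⁻¹ = T / (1 + T) := by
      field_simp
      ring
    rw [this]
    field_simp
  have a2 : (1 - (1 + T)) / (1 - (1 - X)) = -(T / X) := by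
    rw [show (1 : ℂ) - (1 + T) = -T by ring, show (1 : ℂ) - (1 - X) = X by ring]
    ring
  have a3 : (1 - (1 + X * T)⁻¹) / (1 - (1 + T)⁻¹) = X * (1 + T) / (1 + X * T) := by
    have : 1 - (1 + T)⁻¹ = T / (1 + T) := by
      field_simp
      ring
    rw [this]
    have : 1 - (1 + X * T)⁻¹ = X * T / (1 + X * T) := by
      field_simp
      ring
    rw [this]
    field_simp
  have a4 : (1 - (1 + X * T)) / (1 - (1 + T)) = X := by
    rw [show (1 : ℂ) - (1 + X * T) = -(X * T) by ring, show (1 : ℂ) - (1 + T) = -T by ring]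
    field_simp
  rw [a1, a2] at e1
  rw [a3, a4] at e2
  have b1 : Dv (1 - X) = -Dv X := hs X
  have b2 : Dv (1 + T) = -Dv (-T) := by
    rw [← hs (-T)]
    congr 1
    ring
  have b3 : Dv (1 + X * T) = -Dv (-(X * T)) := by
    rw [← hs (-(X * T))]
    congr 1
    ring
  have b4 : Dv (-(1 / (X * T))) = -Dv (-(X * T)) := by
    rw [← hi (-(X * T))]
    congr 1
    rw [inv_neg, one_div]
  rw [b1, b2] at e1
  rw [b2, b3] at e2
  rw [b4]
  linarith

lemma stepB (hS : S_DSYM) (hF : S_FIVE) (T X : ℂ) (hT : T ≠ 0) (hT1 : T ≠ -1) (hX : X ≠ 0)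
    (hX1 : X ≠ 1) (h1 : T + X ≠ 0) (h2 : 1 + X * T ≠ 0) :
    (Dv ((1 - X) / (1 + T)) + Dv ((1 + T) / (1 + X * T))) +
      (Dv (-((1 - X) * T / (X * (1 + T)))) + Dv (X * (1 + T) / (1 + X * T))) =
    Dv (-((1 - X) ^ 2 * T / (X * (1 + T) ^ 2))) := by
  obtain ⟨_, hs, hi⟩ := hS
  have hT1' : 1 + T ≠ 0 := by
    intro h
    apply hT1
    linear_combination h
  have hX1' : 1 - X ≠ 0 := by
    intro h
    apply hX1
    linear_combination -h
  set A : ℂ := (1 - X) / (1 + T) with hA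
  set B : ℂ := -((1 - X) * T / (X * (1 + T))) with hB
  set p : ℂ := -((1 - X) ^ 2 * T / (X * (1 + T) ^ 2)) with hp
  have hA0 : A ≠ 0 := div_ne_zero hX1' hT1'
  have hB0 : B ≠ 0 := neg_ne_zero.2 (div_ne_zero (mul_ne_zero hX1' hT) (mul_ne_zero hX hT1'))
  have hp0 : p ≠ 0 := neg_ne_zero.2 (div_ne_zero (mul_ne_zero (pow_ne_zero 2 hX1') hT)
    (mul_ne_zero hX (pow_ne_zero 2 hT1')))
  have hAB : A * B = p := by
    rw [hA, hB, hp]
    field_simp
  have q1 : 1 - A = (T + X) / (1 + T) := by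
    rw [hA]
    field_simp
    ring
  have q2 : 1 - B = (T + X) / (X * (1 + T)) := by
    rw [hB]
    field_simp
    ring
  have q3 : 1 - p = (T + X) * (1 + X * T) / (X * (1 + T) ^ 2) := by
    rw [hp]
    field_simp
    ring
  have hA1 : 1 - A ≠ 0 := by
    rw [q1]
    exact div_ne_zero h1 hT1'
  have hB1 : 1 - B ≠ 0 := by
    rw [q2]
    exact div_ne_zero h1 (mul_ne_zero hX hT1')
  have hp1 : 1 - p ≠ 0 := by
    rw [q3]
    exact div_ne_zero (mul_ne_zero h1 h2) (mul_ne_zero hX (pow_ne_zero 2 hT1'))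
  have e := hF A p hA0 (fun h => hA1 (by rw [h]; ring)) hp0 (fun h => hp1 (by rw [h]; ring)) (by
    intro h
    apply hB1
    have h3 : A * (1 - B) = 0 := by
      rw [mul_sub, hAB, ← h]
      ring
    exact (mul_eq_zero.1 h3).resolve_left hA0)
  have r1 : p / A = B := by
    rw [← hAB]
    field_simp
  have r2 : (1 - A) / (1 - p) = X * (1 + T) / (1 + X * T) := by
    rw [q1, q3]
    field_simp
  have r3 : (1 - B) / (1 - p) = (1 + T) / (1 + X * T) := by
    rw [q2, q3]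
    field_simp
  have r4 : (1 - A⁻¹) / (1 - p⁻¹) = 1 - (1 + T) / (1 + X * T) := by
    have s1 : (1 - A⁻¹) = -(1 - A) / A := by
      field_simp
      ring
    have s2 : (1 - p⁻¹) = -(1 - p) / p := by
      field_simp
      ring
    rw [s1, s2, ← r3]
    have s3 : -(1 - A) / A / (-(1 - p) / p) = (p / A) * (1 - A) / (1 - p) := by
      field_simp
    rw [s3, r1]
    rw [eq_sub_iff_add_eq, ← add_div, div_eq_one_iff_eq hp1, ← hAB]
    ring
  rw [r1, r2, r4, hs] at e
  linarith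

theorem main : S_DSYM → S_FIVE → S_HID := by
  intro hS hF G K X hG hK hX hG1 hK1 hX1 h1 h2 h3 h4 hpp
  have aG := stepA hS hF G X hG hG1 hX hX1 h1 h2
  have aK := stepA hS hF K X hK hK1 hX hX1 h3 h4
  have bG := stepB hS hF G X hG hG1 hX hX1 h1 h2
  have bK := stepB hS hF K X hK hK1 hX hX1 h3 h4
  obtain ⟨_, hs, hi⟩ := hS
  have hG1' : 1 + G ≠ 0 := by
    intro h
    apply hG1
    linear_combination h
  have hK1' : 1 + K ≠ 0 := by
    intro h
    apply hK1
    linear_combination h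
  have hX1' : 1 - X ≠ 0 := by
    intro h
    apply hX1
    linear_combination -h
  set p : ℂ := -((1 - X) ^ 2 * G / (X * (1 + G) ^ 2)) with hp
  set p' : ℂ := -((1 - X) ^ 2 * K / (X * (1 + K) ^ 2)) with hp'
  have hp0 : p ≠ 0 := neg_ne_zero.2 (div_ne_zero (mul_ne_zero (pow_ne_zero 2 hX1') hG)
    (mul_ne_zero hX (pow_ne_zero 2 hG1')))
  have hp0' : p' ≠ 0 := neg_ne_zero.2 (div_ne_zero (mul_ne_zero (pow_ne_zero 2 hX1') hK)
    (mul_ne_zero hX (pow_ne_zero 2 hK1')))
  have c1 : p' = 1 - p := by linear_combination hpp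
  have c2 : Dv p' = -Dv p := by rw [c1, hs]
  have c3 : -((1 + K) ^ 2 * G / (K * (1 + G) ^ 2)) = 1 - (p')⁻¹ := by
    have d1 : (1 + K) ^ 2 * G / (K * (1 + G) ^ 2) = p / p' := by
      rw [hp, hp']
      field_simp
    rw [d1]
    have d2 : p = 1 - p' := by rw [c1]; ring
    rw [d2]
    field_simp
    ring
  have c4 : Dv (-((1 + K) ^ 2 * G / (K * (1 + G) ^ 2))) = -Dv p := by
    rw [c3, hs, hi, c2, neg_neg]
  rw [c4]
  rw [c2] at bK
  linarith

end Pool.Agent.W883.HT.Hid
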